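import Mathlib

/-!
# The local dimension of the Boolean lattice

`ldim (2^4) = 3`, hence `ldim (2^n) ≤ n - ⌊n/4⌋ < n` for all `n ≥ 4`, while `ldim (2^n) = n` for
`n = 1, 2, 3`.
-/

set_option autoImplicit false

namespace Pool.Agent.Results.MP_666a49_co.LocalDimension

/-- A partial linear extension of `P`: a (strict) linear order `L` on a subset `Y` of `P` which
extends the order of `P` on `Y`. -/
structure PLE (P : Type) [PartialOrder P] where
  /-- the underlying subset -/
  Y : Set P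
  /-- the strict linear order (only its values on `Y` matter) -/
  L : P → P → Prop
  irrefl : ∀ x ∈ Y, ¬ L x x
  trans : ∀ x ∈ Y, ∀ y ∈ Y, ∀ z ∈ Y, L x y → L y z → L x z
  total : ∀ x ∈ Y, ∀ y ∈ Y, x ≠ y → L x y ∨ L y x
  ext : ∀ x ∈ Y, ∀ y ∈ Y, x < y → L x y

/-- A local realizer: a family of partial linear extensions such that (i) every pair `x < y` occurs
as `x <_L y` in a member containing both, (ii) for every incomparable pair `x, y` there are members
containing both in which `x <_L y`, and `y <_L x` respectively. -/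
def IsLocalRealizer {P ι : Type} [PartialOrder P] (F : ι → PLE P) : Prop :=
  (∀ x y, x < y → ∃ i, x ∈ (F i).Y ∧ y ∈ (F i).Y ∧ (F i).L x y) ∧
  (∀ x y, ¬ x ≤ y → ¬ y ≤ x → (∃ i, x ∈ (F i).Y ∧ y ∈ (F i).Y ∧ (F i).L x y) ∧
    ∃ j, x ∈ (F j).Y ∧ y ∈ (F j).Y ∧ (F j).L y x)

/-- `P` has a local realizer in which every element occurs in at most `k` members. -/
def HasLocalRealizer (P : Type) [PartialOrder P] (k : ℕ) : Prop :=
  ∃ (ι : Type) (F : ι → PLE P), IsLocalRealizer F ∧ ∀ x, {i | x ∈ (F i).Y}.encard ≤ k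

/-- The local dimension: the least possible value, over all local realizers, of the largest number
of members containing an element. -/
noncomputable def ldim (P : Type) [PartialOrder P] : ℕ := sInf {k | HasLocalRealizer P k}

section general

variable {P Q : Type} [PartialOrder P] [PartialOrder Q]

theorem isLocalRealizer_iff {ι : Type} (F : ι → PLE P) :
    IsLocalRealizer F ↔ ∀ x y, ¬ y ≤ x → ∃ i, x ∈ (F i).Y ∧ y ∈ (F i).Y ∧ (F i).L x y := by
  constructor
  · rintro ⟨h1, h2⟩ x y h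
    by_cases hxy : x ≤ y
    · exact h1 x y (lt_of_le_not_ge hxy h)
    · exact (h2 x y hxy h).1
  · intro h
    refine ⟨fun x y hxy => h x y (not_le_of_gt hxy), fun x y h1 h2 => ⟨h x y h2, ?_⟩⟩
    obtain ⟨i, a, b, c⟩ := h y x h1
    exact ⟨i, b, a, c⟩

/-- a linear extension, as a strict relation -/
theorem exists_lin (Q : Type) [PartialOrder Q] : ∃ s : Q → Q → Prop, (∀ x, ¬ s x x) ∧
    (∀ x y z, s x y → s y z → s x z) ∧ (∀ x y, x ≠ y → s x y ∨ s y x) ∧
    ∀ x y, x < y → s x y := by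
  refine ⟨fun x y => toLinearExtension x < toLinearExtension y, fun _ => lt_irrefl _,
    fun _ _ _ h1 h2 => lt_trans h1 h2, fun _ _ h => ?_, fun _ _ h => ?_⟩
  · exact lt_or_gt_of_ne (fun h' => h h')
  · exact lt_of_le_of_ne (toLinearExtension.monotone h.le) (fun h' => h.ne h')

/-- lexicographic extension of a ple of `P` to `P × Q` -/
def left (s : Q → Q → Prop) (h1 : ∀ x, ¬ s x x) (h2 : ∀ x y z, s x y → s y z → s x z)
    (h3 : ∀ x y, x ≠ y → s x y ∨ s y x) (h4 : ∀ x y, x < y → s x y) (A : PLE P) :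
    PLE (P × Q) where
  Y := {p | p.1 ∈ A.Y}
  L := fun p q => A.L p.1 q.1 ∨ (p.1 = q.1 ∧ s p.2 q.2)
  irrefl := by
    rintro ⟨x, q⟩ hx (h | h)
    · exact A.irrefl x hx h
    · exact h1 q h.2
  trans := by
    rintro ⟨x, q⟩ hx ⟨y, r⟩ hy ⟨z, t⟩ hz hxy hyz
    simp only [Set.mem_ofPred_eq] at *
    rcases hxy with h | ⟨rfl, h⟩
    · rcases hyz with h' | ⟨rfl, h'⟩
      · exact Or.inl (A.trans x hx y hy z hz h h')
      · exact Or.inl h
    · rcases hyz with h' | ⟨rfl, h'⟩
      · exact Or.inl h'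
      · exact Or.inr ⟨rfl, h2 _ _ _ h h'⟩
  total := by
    rintro ⟨x, q⟩ hx ⟨y, r⟩ hy hne
    simp only [Set.mem_ofPred_eq] at *
    by_cases h : x = y
    · subst h
      have hqr : q ≠ r := fun h => hne (by rw [h])
      rcases h3 q r hqr with h | h
      · exact Or.inl (Or.inr ⟨rfl, h⟩)
      · exact Or.inr (Or.inr ⟨rfl, h⟩)
    · rcases A.total x hx y hy h with h | h
      · exact Or.inl (Or.inl h)
      · exact Or.inr (Or.inl h)
  ext := by
    rintro ⟨x, q⟩ hx ⟨y, r⟩ hy hlt
    simp only [Set.mem_ofPred_eq] at *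
    rw [Prod.mk_lt_mk] at hlt
    rcases hlt with ⟨h, _⟩ | ⟨h, h'⟩
    · exact Or.inl (A.ext x hx y hy h)
    · rcases h.eq_or_lt with rfl | h
      · exact Or.inr ⟨rfl, h4 _ _ h'⟩
      · exact Or.inl (A.ext x hx y hy h)

/-- transport along an order isomorphism -/
def transport (e : Q ≃o P) (A : PLE P) : PLE Q where
  Y := {q | e q ∈ A.Y}
  L := fun x y => A.L (e x) (e y)
  irrefl := fun _ hx => A.irrefl _ hx
  trans := fun _ hx _ hy _ hz => A.trans _ hx _ hy _ hz
  total := fun _ hx _ hy h => A.total _ hx _ hy (fun h' => h (e.injective h'))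
  ext := fun _ hx _ hy h => A.ext _ hx _ hy (e.lt_iff_lt.2 h)

theorem HasLocalRealizer.transport {k : ℕ} (h : HasLocalRealizer P k) (e : Q ≃o P) :
    HasLocalRealizer Q k := by
  obtain ⟨ι, F, hF, hk⟩ := h
  refine ⟨ι, fun i => LocalDimension.transport e (F i), ?_, fun x => hk (e x)⟩
  rw [isLocalRealizer_iff] at hF ⊢
  intro x y h
  exact hF (e x) (e y) (fun h' => h (e.le_iff_le.1 h'))

theorem HasLocalRealizer.prod {k m : ℕ} (h : HasLocalRealizer P k) (h' : HasLocalRealizer Q m) :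
    HasLocalRealizer (P × Q) (k + m) := by
  obtain ⟨ι, F, hF, hk⟩ := h
  obtain ⟨κ, G, hG, hm⟩ := h'
  obtain ⟨s, s1, s2, s3, s4⟩ := exists_lin Q
  obtain ⟨t, t1, t2, t3, t4⟩ := exists_lin P
  rw [isLocalRealizer_iff] at hF hG
  let H : ι ⊕ κ → PLE (P × Q) := fun i =>
    Sum.elim (fun i => left s s1 s2 s3 s4 (F i))
      (fun j => LocalDimension.transport OrderIso.prodComm (left t t1 t2 t3 t4 (G j))) i
  refine ⟨ι ⊕ κ, H, ?_, ?_⟩
  · rw [isLocalRealizer_iff]
    rintro ⟨x, q⟩ ⟨y, r⟩ hle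
    rw [Prod.mk_le_mk, not_and_or] at hle
    rcases hle with h | h
    · obtain ⟨i, a, b, c⟩ := hF x y h
      exact ⟨Sum.inl i, a, b, Or.inl c⟩
    · obtain ⟨i, a, b, c⟩ := hG q r h
      exact ⟨Sum.inr i, a, b, Or.inl c⟩
  · rintro ⟨x, q⟩
    have hset : {i : ι ⊕ κ | (x, q) ∈ (H i).Y} =
        Sum.inl '' {i | x ∈ (F i).Y} ∪ Sum.inr '' {j | q ∈ (G j).Y} := by
      ext i
      rcases i with i | i
      · simp only [Set.mem_ofPred_eq, Set.mem_union, Set.mem_image, Sum.inl.injEq, exists_eq_right,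
          reduceCtorEq, and_false, exists_false, or_false]
        exact Iff.rfl
      · simp only [Set.mem_ofPred_eq, Set.mem_union, Set.mem_image, Sum.inr.injEq, exists_eq_right,
          reduceCtorEq, and_false, exists_false, false_or]
        exact Iff.rfl
    rw [hset]
    refine (Set.encard_union_le _ _).trans ?_
    rw [Sum.inl_injective.encard_image, Sum.inr_injective.encard_image]
    push_cast
    exact add_le_add (hk x) (hm q)

theorem HasLocalRealizer.mono {k m : ℕ} (h : HasLocalRealizer P k) (hkm : k ≤ m) :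
    HasLocalRealizer P m := by
  obtain ⟨ι, F, hF, hk⟩ := h
  exact ⟨ι, F, hF, fun x => (hk x).trans (by exact_mod_cast hkm)⟩

end general

/-! ### Splitting the Boolean lattice -/

/-- `2^(m+n) = 2^m × 2^n` -/
def split (m n : ℕ) : Finset (Fin (m + n)) ≃o Finset (Fin m) × Finset (Fin n) :=
  (show Finset (Fin (m + n)) ≃o Finset (Fin m ⊕ Fin n) from
    { toEquiv := (finSumFinEquiv (m := m) (n := n)).symm.finsetCongr
      map_rel_iff' := by
        intro a b
        simp only [Equiv.finsetCongr_apply, Finset.map_subset_map] }).trans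
    Finset.sumEquiv

theorem add {m n k l : ℕ} (h : HasLocalRealizer (Finset (Fin m)) k)
    (h' : HasLocalRealizer (Finset (Fin n)) l) :
    HasLocalRealizer (Finset (Fin (m + n))) (k + l) :=
  (h.prod h').transport (split m n)

/-! ### Small cases -/

theorem zero : HasLocalRealizer (Finset (Fin 0)) 0 := by
  refine ⟨Empty, fun i => i.elim, ?_, fun x => ?_⟩
  · rw [isLocalRealizer_iff]
    intro x y h
    exact absurd (le_of_eq (Subsingleton.elim y x)) h
  · rw [Set.eq_empty_of_isEmpty {i : Empty | x ∈ (Empty.elim i : PLE (Finset (Fin 0))).Y}]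
    simp

/-- a ple given by a list -/
def ofList {P : Type} [PartialOrder P] [DecidableEq P] (l : List P)
    (h : ∀ x ∈ l, ∀ y ∈ l, x < y → l.idxOf x < l.idxOf y) : PLE P where
  Y := {x | x ∈ l}
  L := fun x y => l.idxOf x < l.idxOf y
  irrefl := fun _ _ => lt_irrefl _
  trans := fun _ _ _ _ _ _ h1 h2 => lt_trans h1 h2
  total := fun x hx y hy hne => by
    rcases lt_trichotomy (l.idxOf x) (l.idxOf y) with h | h | h
    · exact Or.inl h
    · exact absurd ((List.idxOf_inj hx).1 h) hne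
    · exact Or.inr h
  ext := h

theorem one : HasLocalRealizer (Finset (Fin 1)) 1 := by
  refine ⟨Unit, fun _ => ofList [∅, {0}] (by decide), ?_, fun x => ?_⟩
  · rw [isLocalRealizer_iff]
    have h : ∀ x y : Finset (Fin 1), ¬ y ≤ x → x ∈ [(∅ : Finset (Fin 1)), {0}] ∧
      y ∈ [(∅ : Finset (Fin 1)), {0}] ∧
        [(∅ : Finset (Fin 1)), {0}].idxOf x < [(∅ : Finset (Fin 1)), {0}].idxOf y := by decide
    intro x y hxy
    exact ⟨(), h x y hxy⟩
  · refine (Set.encard_le_encard (Set.subset_univ _)).trans ?_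
    simp

/-- the subset of `{0, 1, 2, 3}` with a given binary code -/
def S (k : ℕ) : Finset (Fin 4) := Finset.univ.filter fun i => k.testBit i.val = true

/-- the four partial linear extensions of the Boolean lattice `2^4` -/
def T : Fin 4 → List (Finset (Fin 4)) :=
  ![[0, 1, 8, 9, 4, 12, 13, 2, 6, 10, 11, 14, 15].map S,
    [0, 2, 4, 6, 8, 12, 14, 1, 9, 5, 13, 3, 7, 15].map S,
    [0, 5, 2, 3, 7, 8, 10, 14, 9, 11, 13, 15].map S,
    [10, 1, 3, 11, 4, 5, 6, 7, 12].map S]

theorem T_ext : ∀ i : Fin 4, ∀ x ∈ T i, ∀ y ∈ T i, x < y → (T i).idxOf x < (T i).idxOf y := by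
  decide +kernel

theorem T_real : ∀ x y : Finset (Fin 4), ¬ y ≤ x →
    ∃ i, x ∈ T i ∧ y ∈ T i ∧ (T i).idxOf x < (T i).idxOf y := by
  decide +kernel

theorem T_card : ∀ x : Finset (Fin 4), (Finset.univ.filter fun i => x ∈ T i).card ≤ 3 := by
  decide +kernel

theorem four : HasLocalRealizer (Finset (Fin 4)) 3 := by
  refine ⟨Fin 4, fun i => ofList (T i) (T_ext i), ?_, fun x => ?_⟩
  · rw [isLocalRealizer_iff]
    exact T_real
  · have : {i : Fin 4 | x ∈ (ofList (T i) (T_ext i)).Y} =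
        ((Finset.univ.filter fun i => x ∈ T i : Finset (Fin 4)) : Set (Fin 4)) := by
      ext i
      simp [ofList]
    rw [this, Set.encard_coe_eq_coe_finsetCard]
    exact_mod_cast T_card x

theorem upper (n : ℕ) : HasLocalRealizer (Finset (Fin n)) (n - n / 4) := by
  induction n using Nat.strong_induction_on with
  | _ n ih =>
    rcases Nat.lt_or_ge n 4 with h | h
    · rcases n with _ | n
      · exact zero
      · have h1 := add (ih n (by omega)) one
        refine h1.mono ?_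
        omega
    · obtain ⟨m, rfl⟩ : ∃ m, n = m + 4 := ⟨n - 4, by omega⟩
      have h1 := add (ih m (by omega)) four
      refine h1.mono ?_
      omega

/-! ### Lower bounds for `n ≤ 3` -/

theorem two_mem {α : Type} {s : Set α} (hs : s.encard ≤ 2) {i j k : α} (hi : i ∈ s) (hj : j ∈ s)
    (hij : i ≠ j) (hk : k ∈ s) : k = i ∨ k = j := by
  by_contra h
  push Not at h
  have h1 : ({i, j, k} : Set α) ⊆ s := by
    rintro x (rfl | rfl | rfl) <;> assumption
  have h2 := (Set.encard_le_encard h1).trans hs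
  rw [Set.encard_insert_of_notMem (by simp [hij, h.1.symm]), Set.encard_pair h.2.symm] at h2
  norm_num at h2

/-- a linear order cannot reverse two crossing pairs -/
theorem no_cycle {P : Type} [PartialOrder P] (A : PLE P) {a b a' b' : P} (ha : a ∈ A.Y)
    (hb : b ∈ A.Y) (ha' : a' ∈ A.Y) (hb' : b' ∈ A.Y) (h1 : A.L b a) (h2 : A.L b' a')
    (h3 : a < b') (h4 : a' < b) : False := by
  have h3' := A.ext a ha b' hb' h3
  have h4' := A.ext a' ha' b hb h4
  exact A.irrefl b hb (A.trans b hb a ha b hb h1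
    (A.trans a ha b' hb' b hb h3' (A.trans b' hb' a' ha' b hb h2 h4')))

theorem single_lt : ∀ c d : Fin 3, c ≠ d → ({c} : Finset (Fin 3)) < {d}ᶜ := by decide

theorem lower_three {k : ℕ} (h : HasLocalRealizer (Finset (Fin 3)) k) : 3 ≤ k := by
  by_contra hlt
  have hk2 : k ≤ 2 := by omega
  obtain ⟨ι, F, hF, hk⟩ := h.mono hk2
  rw [isLocalRealizer_iff] at hF
  -- incomparable elements lie in the same members
  have key : ∀ x y : Finset (Fin 3), ¬ x ≤ y → ¬ y ≤ x →
      {i | x ∈ (F i).Y} = {i | y ∈ (F i).Y} := by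
    intro x y h1 h2
    obtain ⟨i, hi1, hi2, hi3⟩ := hF x y h2
    obtain ⟨j, hj1, hj2, hj3⟩ := hF y x h1
    have hij : i ≠ j := by
      rintro rfl
      exact (F i).irrefl x hi1 ((F i).trans x hi1 y hi2 x hi1 hi3 hj3)
    ext l
    constructor
    · intro hl
      rcases two_mem (hk x) (i := i) (j := j) hi1 hj2 hij hl with rfl | rfl
      · exact hi2
      · exact hj1
    · intro hl
      rcases two_mem (hk y) (i := i) (j := j) hi2 hj1 hij hl with rfl | rfl
      · exact hi1
      · exact hj2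
  let a : Fin 3 → Finset (Fin 3) := fun c => {c}
  let b : Fin 3 → Finset (Fin 3) := fun c => {c}ᶜ
  have hab : ∀ c, {i | a c ∈ (F i).Y} = {i | b c ∈ (F i).Y} := fun c =>
    key _ _ (by revert c; decide) (by revert c; decide)
  have haa : ∀ c d, {i | a c ∈ (F i).Y} = {i | a d ∈ (F i).Y} := fun c d => by
    rcases eq_or_ne c d with rfl | hcd
    · rfl
    · exact key _ _ (by revert c d; decide) (by revert c d; decide)
  have hrev : ∀ c, ∃ i, a c ∈ (F i).Y ∧ b c ∈ (F i).Y ∧ (F i).L (b c) (a c) := fun c => by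
    obtain ⟨i, h1, h2, h3⟩ := hF (b c) (a c) (by revert c; decide)
    exact ⟨i, h2, h1, h3⟩
  choose f hf1 hf2 hf3 using hrev
  have hf0 : ∀ c, a 0 ∈ (F (f c)).Y := fun c => by
    have : f c ∈ {i | a c ∈ (F i).Y} := hf1 c
    rw [haa c 0] at this
    exact this
  have hmem : ∀ c d, a c ∈ (F (f d)).Y ∧ b c ∈ (F (f d)).Y := fun c d => by
    have h1 : f d ∈ {i | a d ∈ (F i).Y} := hf1 d
    rw [haa d c] at h1
    refine ⟨h1, ?_⟩
    rw [hab c] at h1
    exact h1
  have hinj : ∀ c d, c ≠ d → f c ≠ f d := by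
    intro c d hcd heq
    have hcd1 : a c < b d := single_lt c d hcd
    have hcd2 : a d < b c := single_lt d c hcd.symm
    have h2 := hf3 d
    rw [← heq] at h2
    exact no_cycle (F (f c)) (hmem c c).1 (hmem c c).2 (hmem d c).1 (hmem d c).2 (hf3 c) h2 hcd1
      hcd2
  rcases two_mem (hk (a 0)) (i := f 0) (j := f 1) (hf0 0) (hf0 1) (hinj 0 1 (by decide))
    (hf0 2) with h | h
  · exact hinj 2 0 (by decide) h
  · exact hinj 2 1 (by decide) h

theorem lower_two {k : ℕ} (h : HasLocalRealizer (Finset (Fin 2)) k) : 2 ≤ k := by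
  obtain ⟨ι, F, hF, hk⟩ := h
  rw [isLocalRealizer_iff] at hF
  obtain ⟨i, hi1, hi2, hi3⟩ := hF {0} {1} (by decide)
  obtain ⟨j, hj1, hj2, hj3⟩ := hF {1} {0} (by decide)
  have hij : i ≠ j := by
    rintro rfl
    exact (F i).irrefl _ hi1 ((F i).trans _ hi1 _ hi2 _ hi1 hi3 hj3)
  have h1 : ({i, j} : Set ι) ⊆ {i | ({0} : Finset (Fin 2)) ∈ (F i).Y} := by
    rintro x (rfl | rfl) <;> assumption
  have h2 := (Set.encard_le_encard h1).trans (hk {0})
  rw [Set.encard_pair hij] at h2
  exact_mod_cast h2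

theorem lower_one {k : ℕ} (h : HasLocalRealizer (Finset (Fin 1)) k) : 1 ≤ k := by
  obtain ⟨ι, F, hF, hk⟩ := h
  rw [isLocalRealizer_iff] at hF
  obtain ⟨i, hi1, hi2, hi3⟩ := hF ∅ {0} (by decide)
  have h1 : ({i} : Set ι) ⊆ {i | (∅ : Finset (Fin 1)) ∈ (F i).Y} := by
    rintro x rfl
    exact hi1
  have h2 := (Set.encard_le_encard h1).trans (hk ∅)
  rw [Set.encard_singleton] at h2
  exact_mod_cast h2

theorem ldim_le {P : Type} [PartialOrder P] {k : ℕ} (h : HasLocalRealizer P k) : ldim P ≤ k :=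
  Nat.sInf_le h

theorem le_ldim {P : Type} [PartialOrder P] {k l : ℕ} (h : HasLocalRealizer P k)
    (h' : ∀ m, HasLocalRealizer P m → l ≤ m) : l ≤ ldim P :=
  h' _ (Nat.sInf_mem (s := {k | HasLocalRealizer P k}) ⟨k, h⟩)

/-- **The local dimension of the Boolean lattice `2^n` equals `n` only for `n ≤ 3`.** For all `n`
it is at most `n - ⌊n/4⌋`; for `n ≥ 1` it is equal to `n` if and only if `n ≤ 3`. -/
theorem result : (∀ n : ℕ, ldim (Finset (Fin n)) ≤ n - n / 4) ∧
    ∀ n : ℕ, 1 ≤ n → (ldim (Finset (Fin n)) = n ↔ n ≤ 3) := by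
  refine ⟨fun n => ldim_le (upper n), fun n hn => ⟨fun h => ?_, fun h => ?_⟩⟩
  · by_contra h3
    have := ldim_le (upper n)
    omega
  · refine le_antisymm ((ldim_le (upper n)).trans (Nat.sub_le _ _)) ?_
    refine le_ldim (upper n) ?_
    obtain rfl | rfl | rfl : n = 1 ∨ n = 2 ∨ n = 3 := by omega
    · exact fun m hm => lower_one hm
    · exact fun m hm => lower_two hm
    · exact fun m hm => lower_three hm

end Pool.Agent.Results.MP_666a49_co.LocalDimension
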